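import Pool.Agent.helper23.CU.Spec

open Finset Filter Topology

namespace CU

lemma BX2_mem {d n : ℕ} [NeZero n] {D : Finset (Site d n)} {σ : Conf d n} (h : σ ∈ PlusOn D) : ext D σ = σ := by
  classical
  funext x
  unfold ext
  by_cases hx : x ∈ D
  · rw [if_pos hx]
  · rw [if_neg hx]
    exact ((mem_filter.mp h).2 x hx).symm

lemma BX2_idem {d n : ℕ} [NeZero n] (D : Finset (Site d n)) (σ : Conf d n) : ext D (ext D σ) = ext D σ := by
  funext x
  unfold ext
  by_cases hx : x ∈ D <;> simp [hx]

lemma BX2_upd {d n : ℕ} [NeZero n] (D : Finset (Site d n)) (σ : Conf d n) (x : Site d n) (hx : x ∉ D) (b : Bool) :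
    ext D (Function.update σ x b) = ext D σ := by
  funext y
  unfold ext
  by_cases hy : y ∈ D
  · have : y ≠ x := fun h => hx (h ▸ hy)
    simp [hy, Function.update_of_ne this]
  · simp [hy]

lemma BX2_pair {d n : ℕ} [NeZero n] (D : Finset (Site d n)) (x : Site d n) (hx : x ∈ D) (F : Conf d n → ℝ) :
    ∑ σ ∈ PlusOn D, (F (Function.update σ x true) + F (Function.update σ x false)) =
      2 * ∑ σ ∈ PlusOn D, F σ := by
  classical
  have h1 : ∀ σ : Conf d n, F (Function.update σ x true) + F (Function.update σ x false) =
      F σ + F (Function.update σ x (!σ x)) := by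
    intro σ
    cases h : σ x
    · rw [show Function.update σ x false = σ by rw [← h, Function.update_eq_self]]
      simp [add_comm]
    · rw [show Function.update σ x true = σ by rw [← h, Function.update_eq_self]]
      simp
  simp only [h1]
  rw [Finset.sum_add_distrib, two_mul]
  congr 1
  have hmem : ∀ σ ∈ PlusOn D, Function.update σ x (!σ x) ∈ PlusOn D := by
    intro σ hσ
    refine mem_filter.mpr ⟨mem_univ _, fun y hy => ?_⟩
    have : y ≠ x := fun h => hy (h ▸ hx)
    rw [Function.update_of_ne this]
    exact (mem_filter.mp hσ).2 y hy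
  have hinv : ∀ σ ∈ PlusOn D, Function.update (Function.update σ x (!σ x)) x
      (!(Function.update σ x (!σ x)) x) = σ := by
    intro σ _
    simp
  exact Finset.sum_nbij' (fun σ => Function.update σ x (!σ x)) (fun σ => Function.update σ x (!σ x))
    hmem hmem hinv hinv (fun σ _ => rfl)

theorem BX2 : BX2_stmt := by
  intro d n _ β D f hf
  classical
  refine ⟨fun σ => by rw [PD, PD, BX2_idem], ?_⟩
  unfold ExD
  congr 1
  have hN : (Fintype.card (Site d n) : ℝ) ≠ 0 := by
    exact_mod_cast Fintype.card_ne_zero
  have h1 : ∑ σ ∈ PlusOn D, W β σ * PD β D f σ =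
      (∑ x : Site d n, ∑ σ ∈ PlusOn D, W β σ * Kx β x f σ) / (Fintype.card (Site d n) : ℝ) := by
    rw [Finset.sum_comm, Finset.sum_div]
    refine Finset.sum_congr rfl fun σ hσ => ?_
    rw [PD, BX2_mem hσ, Pf, ← Finset.mul_sum, mul_div_assoc]
  have hW : ∀ σ : Conf d n, 0 < W β σ := fun σ => Real.exp_pos _
  have h2 : ∀ x : Site d n, ∑ σ ∈ PlusOn D, W β σ * Kx β x f σ = ∑ σ ∈ PlusOn D, W β σ * f σ := by
    intro x
    by_cases hx : x ∈ D
    · have e1 := BX2_pair D x hx (fun σ => W β σ * Kx β x f σ)
      have e2 := BX2_pair D x hx (fun σ => W β σ * f σ)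
      have e3 : ∀ σ : Conf d n, (W β (Function.update σ x true) * Kx β x f (Function.update σ x true) +
          W β (Function.update σ x false) * Kx β x f (Function.update σ x false)) =
          (W β (Function.update σ x true) * f (Function.update σ x true) +
          W β (Function.update σ x false) * f (Function.update σ x false)) := by
        intro σ
        simp only [Kx, Function.update_idem]
        have := hW (Function.update σ x true)
        have := hW (Function.update σ x false)
        field_simp
      simp only [e3] at e1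
      linarith
    · refine Finset.sum_congr rfl fun σ hσ => ?_
      congr 1
      unfold Kx
      have e1 : ∀ b, f (Function.update σ x b) = f σ := by
        intro b
        rw [← hf, BX2_upd D σ x hx b, hf]
      rw [e1, e1]
      have := hW (Function.update σ x true)
      have := hW (Function.update σ x false)
      field_simp
  rw [h1]
  simp only [h2]
  rw [Finset.sum_const, Finset.card_univ, nsmul_eq_mul]
  field_simp

end CU
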