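import Pool.Agent.helper23.CU.SpecE

open Finset Filter Topology

namespace CU

section GIsec
variable {d n : ℕ} [NeZero n]

def GI_a (x : Site d n) : Conf d n × Conf d n → ℝ := fun τ => sg (τ.1 x) + sg (τ.2 x)
def GI_b (x : Site d n) : Conf d n × Conf d n → ℝ := fun τ => sg (τ.1 x) - sg (τ.2 x)

def GI_G (d n : ℕ) [NeZero n] : Submonoid (Conf d n × Conf d n → ℝ) where
  carrier := {g | ∃ c : ℝ, 0 ≤ c ∧ ∃ p q : Site d n → ℕ, ∀ τ, g τ =
    c * ∏ x, (GI_a x τ ^ p x * GI_b x τ ^ q x)}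
  one_mem' := ⟨1, zero_le_one, 0, 0, fun τ => by simp⟩
  mul_mem' := by
    rintro f g ⟨c, hc, p, q, h⟩ ⟨c', hc', p', q', h'⟩
    refine ⟨c * c', mul_nonneg hc hc', p + p', q + q', fun τ => ?_⟩
    rw [Pi.mul_apply, h, h', mul_mul_mul_comm, ← Finset.prod_mul_distrib]
    congr 1
    refine Finset.prod_congr rfl fun x _ => ?_
    simp only [Pi.add_apply, pow_add]
    ring

noncomputable def GI_L (D : Finset (Site d n)) (f : Conf d n × Conf d n → ℝ) : ℝ :=
  ∑ σ ∈ PlusOn D, ∑ σ' ∈ PlusOn D, f (σ, σ')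

lemma GI_plus (D : Finset (Site d n)) :
    PlusOn D = Fintype.piFinset (fun x => if x ∈ D then (univ : Finset Bool) else {true}) := by
  classical
  ext σ
  simp only [PlusOn, mem_filter, mem_univ, true_and, Fintype.mem_piFinset]
  refine forall_congr' fun x => ?_
  by_cases h : x ∈ D
  · simp [h]
  · simp [h]

lemma GI_L_G (D : Finset (Site d n)) {f : Conf d n × Conf d n → ℝ} (hf : f ∈ GI_G d n) :
    0 ≤ GI_L D f := by
  classical
  obtain ⟨c, hc, p, q, h⟩ := hf
  unfold GI_L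
  simp only [h, ← Finset.mul_sum]
  refine mul_nonneg hc ?_
  rw [GI_plus]
  have h1 : ∀ σ : Conf d n, (∑ σ' ∈ Fintype.piFinset (fun x => if x ∈ D then (univ : Finset Bool) else {true}),
      ∏ x, (GI_a x (σ, σ') ^ p x * GI_b x (σ, σ') ^ q x)) =
      ∏ x, ∑ b' ∈ (if x ∈ D then (univ : Finset Bool) else {true}),
        ((sg (σ x) + sg b') ^ p x * (sg (σ x) - sg b') ^ q x) := by
    intro σ
    rw [Finset.prod_univ_sum]
    rfl
  simp only [h1]
  rw [← Finset.prod_univ_sum (fun x => if x ∈ D then (univ : Finset Bool) else {true})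
    (fun x b => ∑ b' ∈ (if x ∈ D then (univ : Finset Bool) else {true}),
        ((sg b + sg b') ^ p x * (sg b - sg b') ^ q x))]
  refine Finset.prod_nonneg fun x _ => ?_
  by_cases hx : x ∈ D
  · simp only [if_pos hx, Fintype.sum_bool, sg, if_true, Bool.false_eq_true, if_false]
    norm_num
    have e1 : (0 : ℝ) ≤ 2 ^ p x + (-2) ^ p x := by
      rw [show (-2 : ℝ) = (-1) * 2 by norm_num, mul_pow]
      rcases neg_one_pow_eq_or ℝ (p x) with h | h <;> rw [h] <;> norm_num
    have e2 : (0 : ℝ) ≤ 2 ^ q x + (-2) ^ q x := by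
      rw [show (-2 : ℝ) = (-1) * 2 by norm_num, mul_pow]
      rcases neg_one_pow_eq_or ℝ (q x) with h | h <;> rw [h] <;> norm_num
    have e3 : (0 : ℝ) ≤ (2 ^ p x + (-2) ^ p x) * 0 ^ q x := mul_nonneg e1 (by positivity)
    have e4 : (0 : ℝ) ≤ 0 ^ p x * (2 ^ q x + (-2) ^ q x) := mul_nonneg (by positivity) e2
    nlinarith [e3, e4]
  · simp only [if_neg hx, Finset.sum_singleton, sg, if_true]
    norm_num

lemma GI_L_S (D : Finset (Site d n)) {f : Conf d n × Conf d n → ℝ}
    (hf : f ∈ (GI_G d n).subsemiringClosure) : 0 ≤ GI_L D f := by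
  have hf' : f ∈ AddSubmonoid.closure ((GI_G d n : Submonoid _) : Set (Conf d n × Conf d n → ℝ)) := by
    rw [← Submonoid.subsemiringClosure_toAddSubmonoid]
    exact hf
  clear hf
  induction hf' using AddSubmonoid.closure_induction with
  | mem f hf => exact GI_L_G D hf
  | zero => simp [GI_L]
  | add f g _ _ hf hg =>
    have : GI_L D (f + g) = GI_L D f + GI_L D g := by
      simp [GI_L, Finset.sum_add_distrib]
    rw [this]
    exact add_nonneg hf hg

lemma GI_a_mem (x : Site d n) : GI_a x ∈ (GI_G d n).subsemiringClosure := by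
  apply AddSubmonoid.subset_closure
  refine ⟨1, zero_le_one, Pi.single x 1, 0, fun τ => ?_⟩
  rw [Finset.prod_eq_single x]
  · simp
  · intro y _ hy
    simp [Pi.single_eq_of_ne hy]
  · intro h
    exact absurd (mem_univ _) h

lemma GI_b_mem (x : Site d n) : GI_b x ∈ (GI_G d n).subsemiringClosure := by
  apply AddSubmonoid.subset_closure
  refine ⟨1, zero_le_one, 0, Pi.single x 1, fun τ => ?_⟩
  rw [Finset.prod_eq_single x]
  · simp
  · intro y _ hy
    simp [Pi.single_eq_of_ne hy]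
  · intro h
    exact absurd (mem_univ _) h

lemma GI_c_mem (c : ℝ) (hc : 0 ≤ c) : (fun _ => c) ∈ (GI_G d n).subsemiringClosure := by
  apply AddSubmonoid.subset_closure
  exact ⟨c, hc, 0, 0, fun τ => by simp⟩

end GIsec

theorem GI : GI_stmt := by
  intro d n _ D J J' hJ X Y
  classical
  let S := (GI_G d n).subsemiringClosure
  let Q : Conf d n × Conf d n → ℝ := ∑ e : Edge d n,
    ((fun _ => (J e + J' e) / 4) * (GI_a e.1 * GI_a (e.1 + ev e.2) + GI_b e.1 * GI_b (e.1 + ev e.2)) +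
      (fun _ => (J e - J' e) / 4) * (GI_a e.1 * GI_b (e.1 + ev e.2) + GI_b e.1 * GI_a (e.1 + ev e.2)))
  have hQ : ∀ τ, Q τ = ∑ e : Edge d n, (J e * ed e τ.1 + J' e * ed e τ.2) := by
    intro τ
    simp only [Q, Finset.sum_apply, Pi.add_apply, Pi.mul_apply]
    refine Finset.sum_congr rfl fun e _ => ?_
    simp only [GI_a, GI_b, ed]
    ring
  have hQS : Q ∈ S := by
    refine Subsemiring.sum_mem _ fun e _ => ?_
    have h1 := (abs_le.mp (hJ e)).1
    have h2 := (abs_le.mp (hJ e)).2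
    refine Subsemiring.add_mem _ (Subsemiring.mul_mem _ (GI_c_mem _ (by linarith)) ?_)
      (Subsemiring.mul_mem _ (GI_c_mem _ (by linarith)) ?_)
    · exact Subsemiring.add_mem _ (Subsemiring.mul_mem _ (GI_a_mem _) (GI_a_mem _))
        (Subsemiring.mul_mem _ (GI_b_mem _) (GI_b_mem _))
    · exact Subsemiring.add_mem _ (Subsemiring.mul_mem _ (GI_a_mem _) (GI_b_mem _))
        (Subsemiring.mul_mem _ (GI_b_mem _) (GI_a_mem _))
  let M : Conf d n × Conf d n → ℝ := (X.map GI_a).prod * (Y.map GI_b).prod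
  have hM : ∀ τ, M τ = (X.map fun x => sg (τ.1 x) + sg (τ.2 x)).prod *
      (Y.map fun x => sg (τ.1 x) - sg (τ.2 x)).prod := by
    intro τ
    simp only [M, Pi.mul_apply]
    congr 1
    · clear hQ hQS
      induction X with
      | nil => simp
      | cons x X ih => simp only [List.map_cons, List.prod_cons, Pi.mul_apply, ih]; rfl
    · clear hQ hQS
      induction Y with
      | nil => simp
      | cons x X ih => simp only [List.map_cons, List.prod_cons, Pi.mul_apply, ih]; rfl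
  have hMS : M ∈ S := by
    refine Subsemiring.mul_mem _ (Subsemiring.list_prod_mem _ ?_) (Subsemiring.list_prod_mem _ ?_)
    · intro f hf
      obtain ⟨x, _, rfl⟩ := List.mem_map.mp hf
      exact GI_a_mem x
    · intro f hf
      obtain ⟨x, _, rfl⟩ := List.mem_map.mp hf
      exact GI_b_mem x
  have hk : ∀ k : ℕ, 0 ≤ GI_L D (Q ^ k * M) / (k.factorial : ℝ) := fun k =>
    div_nonneg (GI_L_S D (Subsemiring.mul_mem _ (Subsemiring.pow_mem _ hQS k) hMS)) (by positivity)
  have hs : HasSum (fun k : ℕ => GI_L D (Q ^ k * M) / (k.factorial : ℝ))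
      (∑ σ ∈ PlusOn D, ∑ σ' ∈ PlusOn D, Real.exp (Q (σ, σ')) * M (σ, σ')) := by
    have e1 : (fun k : ℕ => GI_L D (Q ^ k * M) / (k.factorial : ℝ)) =
        fun k : ℕ => ∑ σ ∈ PlusOn D, ∑ σ' ∈ PlusOn D, (Q (σ, σ') ^ k / (k.factorial : ℝ)) * M (σ, σ') := by
      funext k
      simp only [GI_L, Finset.sum_div, Pi.mul_apply, Pi.pow_apply]
      refine Finset.sum_congr rfl fun σ _ => Finset.sum_congr rfl fun σ' _ => by ring
    rw [e1]
    refine hasSum_sum fun σ _ => hasSum_sum fun σ' _ => ?_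
    refine HasSum.mul_right _ ?_
    rw [Real.exp_eq_exp_ℝ]
    exact NormedSpace.expSeries_div_hasSum_exp (Q (σ, σ'))
  have h := hs.nonneg hk
  simp only [hQ, hM] at h
  exact h

end CU
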