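import Pool.Agent.helper23.CU.Spec

open Finset Filter Topology

namespace CU

lemma GR_plus {d n : ℕ} [NeZero n] (D : Finset (Site d n)) :
    PlusOn D = Fintype.piFinset (fun x => if x ∈ D then (univ : Finset Bool) else {true}) := by
  classical
  ext σ
  simp only [PlusOn, mem_filter, mem_univ, true_and, Fintype.mem_piFinset]
  refine forall_congr' fun x => ?_
  by_cases h : x ∈ D
  · simp [h]
  · simp [h]

lemma GR_mono {d n : ℕ} [NeZero n] (D : Finset (Site d n)) (k : Site d n → ℕ) :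
    0 ≤ ∑ σ ∈ PlusOn D, ∏ x, sg (σ x) ^ k x := by
  rw [GR_plus, ← Finset.prod_univ_sum (fun x => if x ∈ D then (univ : Finset Bool) else {true})
    (fun x b => sg b ^ k x)]
  refine Finset.prod_nonneg fun x _ => ?_
  by_cases h : x ∈ D
  · rw [if_pos h]
    simp only [Fintype.sum_bool, sg, if_true, one_pow, Bool.false_eq_true, if_false]
    rcases neg_one_pow_eq_or ℝ (k x) with h | h <;> rw [h] <;> norm_num
  · rw [if_neg h]
    simp [sg]

def GR_M (d n : ℕ) [NeZero n] : Submonoid (Conf d n → ℝ) :=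
  Submonoid.closure (Set.range fun (x : Site d n) (σ : Conf d n) => sg (σ x))

lemma GR_gen {d n : ℕ} [NeZero n] (x : Site d n) :
    (fun σ : Conf d n => sg (σ x)) ∈ GR_M d n :=
  Submonoid.subset_closure ⟨x, rfl⟩

lemma GR_rep {d n : ℕ} [NeZero n] {f : Conf d n → ℝ} (hf : f ∈ GR_M d n) :
    ∃ k : Site d n → ℕ, ∀ σ, f σ = ∏ x, sg (σ x) ^ k x := by
  induction hf using Submonoid.closure_induction with
  | mem f hf =>
    obtain ⟨x, rfl⟩ := hf
    refine ⟨Pi.single x 1, fun σ => ?_⟩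
    rw [Finset.prod_eq_single x]
    · simp
    · intro y _ hy
      simp [Pi.single_eq_of_ne hy]
    · intro h
      exact absurd (mem_univ _) h
  | one => exact ⟨0, fun σ => by simp⟩
  | mul f g _ _ hf hg =>
    obtain ⟨k, hk⟩ := hf
    obtain ⟨l, hl⟩ := hg
    exact ⟨k + l, fun σ => by simp [hk, hl, pow_add, Finset.prod_mul_distrib]⟩

lemma GR_pos {d n : ℕ} [NeZero n] (D : Finset (Site d n)) {f : Conf d n → ℝ} (hf : f ∈ GR_M d n) :
    0 ≤ ∑ σ ∈ PlusOn D, f σ := by
  obtain ⟨k, hk⟩ := GR_rep hf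
  simp only [hk]
  exact GR_mono D k

lemma GR_sg (b : Bool) : sg b = 1 ∨ sg b = -1 := by
  cases b <;> simp [sg]

lemma GR_exp {d n : ℕ} [NeZero n] (β : ℝ) (F : Finset (Edge d n)) (σ : Conf d n) :
    Real.exp (-2 * β * ((brk σ ∩ F).card : ℝ)) =
      ∏ e ∈ F, Real.exp (-β) * (Real.cosh β + sg (σ e.1) * sg (σ (e.1 + ev e.2)) * Real.sinh β) := by
  have h1 : ((brk σ ∩ F).card : ℝ) = ∑ e ∈ F, if e ∈ brk σ then (1 : ℝ) else 0 := by
    rw [Finset.sum_ite_mem, Finset.sum_const, Finset.inter_comm]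
    simp
  rw [h1, Finset.mul_sum, Real.exp_sum]
  refine Finset.prod_congr rfl fun e _ => ?_
  by_cases h : e ∈ brk σ
  · have h2 : σ e.1 ≠ σ (e.1 + ev e.2) := by
      simpa [brk] using h
    have h3 : sg (σ e.1) * sg (σ (e.1 + ev e.2)) = -1 := by
      revert h2
      cases σ e.1 <;> cases σ (e.1 + ev e.2) <;> simp [sg]
    rw [if_pos h, h3, mul_one, neg_one_mul, ← sub_eq_add_neg, Real.cosh_sub_sinh, ← Real.exp_add]
    congr 1
    ring
  · have h2 : σ e.1 = σ (e.1 + ev e.2) := by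
      by_contra hc
      exact h (by simpa [brk] using hc)
    have h3 : sg (σ e.1) * sg (σ (e.1 + ev e.2)) = 1 := by
      rw [← h2]
      cases σ e.1 <;> simp [sg]
    rw [if_neg h, h3, mul_zero, Real.exp_zero, one_mul, Real.cosh_add_sinh, ← Real.exp_add, neg_add_cancel,
      Real.exp_zero]

theorem GR : GR_stmt := by
  intro d n _ β hβ F x y
  classical
  have h0 : (univ : Finset (Conf d n)) = PlusOn (univ : Finset (Site d n)) := by
    ext σ
    simp [PlusOn]
  have hs : 0 ≤ Real.sinh β := Real.sinh_nonneg_iff.mpr hβ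
  rw [h0]
  have h1 : ∀ σ : Conf d n, Real.exp (-2 * β * ((brk σ ∩ F).card : ℝ)) * (sg (σ x) * sg (σ y)) =
      ∑ T ∈ F.powerset, (Real.exp (-β) ^ F.card * Real.cosh β ^ T.card * Real.sinh β ^ (F \ T).card) *
        ((∏ e ∈ F \ T, (sg (σ e.1) * sg (σ (e.1 + ev e.2)))) * (sg (σ x) * sg (σ y))) := by
    intro σ
    rw [GR_exp, Finset.prod_mul_distrib, Finset.prod_const, Finset.prod_add, Finset.mul_sum,
      Finset.sum_mul]
    refine Finset.sum_congr rfl fun T _ => ?_
    rw [Finset.prod_const, Finset.prod_mul_distrib, Finset.prod_const]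
    ring
  simp only [h1]
  rw [Finset.sum_comm]
  refine Finset.sum_nonneg fun T _ => ?_
  rw [← Finset.mul_sum]
  refine mul_nonneg (by positivity) ?_
  have h2 : (fun σ : Conf d n => (∏ e ∈ F \ T, (sg (σ e.1) * sg (σ (e.1 + ev e.2)))) *
      (sg (σ x) * sg (σ y))) ∈ GR_M d n := by
    have h3 : (∏ e ∈ F \ T, ((fun σ : Conf d n => sg (σ e.1)) * (fun σ : Conf d n => sg (σ (e.1 + ev e.2))))) *
      ((fun σ : Conf d n => sg (σ x)) * (fun σ : Conf d n => sg (σ y))) ∈ GR_M d n :=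
      Submonoid.mul_mem _ (Submonoid.prod_mem _ fun e _ => Submonoid.mul_mem _ (GR_gen _) (GR_gen _))
        (Submonoid.mul_mem _ (GR_gen _) (GR_gen _))
    convert h3 using 1
    funext σ
    simp only [Pi.mul_apply, Finset.prod_apply]
  exact GR_pos _ h2

end CU
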