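import Pool.Agent.helper23.CU.SpecE

open Finset Filter Topology

namespace CU

lemma HC_card {d n : ℕ} [NeZero n] (γ : Finset (Edge d n)) (σ : Conf d n) :
    -2 * ((symmDiff (brk σ) γ).card : ℝ) = ∑ e : Edge d n, (sgn γ e * ed e σ - 1) := by
  classical
  have h1 : ((symmDiff (brk σ) γ).card : ℝ) = ∑ e : Edge d n, if e ∈ symmDiff (brk σ) γ then (1 : ℝ) else 0 := by
    rw [Finset.sum_ite_mem, Finset.sum_const, Finset.univ_inter]
    simp
  rw [h1, Finset.mul_sum]
  refine Finset.sum_congr rfl fun e _ => ?_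
  have h2 : (e ∈ symmDiff (brk σ) γ ∧ sgn γ e * ed e σ = -1) ∨ (e ∉ symmDiff (brk σ) γ ∧ sgn γ e * ed e σ = 1) := by
    by_cases hb : σ e.1 = σ (e.1 + ev e.2)
    · have hbr : e ∉ brk σ := by simp [brk, hb]
      have hed : ed e σ = 1 := by
        unfold ed
        rw [← hb]
        cases σ e.1 <;> simp [sg]
      by_cases hg : e ∈ γ
      · left
        exact ⟨by simp [Finset.mem_symmDiff, hbr, hg], by simp [sgn, hg, hed]⟩
      · right
        exact ⟨by simp [Finset.mem_symmDiff, hbr, hg], by simp [sgn, hg, hed]⟩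
    · have hbr : e ∈ brk σ := by simp [brk, hb]
      have hed : ed e σ = -1 := by
        unfold ed
        revert hb
        cases σ e.1 <;> cases σ (e.1 + ev e.2) <;> simp [sg]
      by_cases hg : e ∈ γ
      · right
        exact ⟨by simp [Finset.mem_symmDiff, hbr, hg], by simp [sgn, hg, hed]⟩
      · left
        exact ⟨by simp [Finset.mem_symmDiff, hbr, hg], by simp [sgn, hg, hed]⟩
  rcases h2 with ⟨h, h3⟩ | ⟨h, h3⟩
  · rw [if_pos h, h3]; norm_num
  · rw [if_neg h, h3]; norm_num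

lemma HC_pos {d n : ℕ} [NeZero n] (D : Finset (Site d n)) (γ : Finset (Edge d n)) (b : ℝ) : 0 < ZG b D γ := by
  unfold ZG
  refine Finset.sum_pos (fun σ _ => Real.exp_pos _) ⟨plus, ?_⟩
  simp [PlusOn, plus]

lemma HC_der {d n : ℕ} [NeZero n] (D : Finset (Site d n)) (γ : Finset (Edge d n)) (b : ℝ) :
    HasDerivAt (fun b => Real.log (ZG b D γ)) (∑ e : Edge d n, (sgn γ e * EG b D γ (ed e) - 1)) b := by
  classical
  have h1 : HasDerivAt (fun b => ZG b D γ) (∑ σ ∈ PlusOn D, Real.exp (-2 * b * ((symmDiff (brk σ) γ).card : ℝ)) *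
      (-2 * ((symmDiff (brk σ) γ).card : ℝ))) b := by
    unfold ZG
    refine HasDerivAt.fun_sum fun σ _ => ?_
    have h2 : HasDerivAt (fun b : ℝ => -2 * b * ((symmDiff (brk σ) γ).card : ℝ))
        (-2 * ((symmDiff (brk σ) γ).card : ℝ)) b := by
      have := ((hasDerivAt_id b).const_mul (-2)).mul_const ((symmDiff (brk σ) γ).card : ℝ)
      simpa using this
    exact h2.exp
  have h3 := h1.log (HC_pos D γ b).ne'
  convert h3 using 1
  rw [eq_div_iff (HC_pos D γ b).ne', Finset.sum_mul]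
  have h4 : ∀ e : Edge d n, (sgn γ e * EG b D γ (ed e) - 1) * ZG b D γ =
      ∑ σ ∈ PlusOn D, Real.exp (-2 * b * ((symmDiff (brk σ) γ).card : ℝ)) * (sgn γ e * ed e σ - 1) := by
    intro e
    unfold EG
    have h5 := (HC_pos D γ b).ne'
    have h6 : (∑ σ ∈ PlusOn D, Real.exp (-2 * b * ((symmDiff (brk σ) γ).card : ℝ)) * (sgn γ e * ed e σ - 1)) =
      sgn γ e * (∑ σ ∈ PlusOn D, Real.exp (-2 * b * ((symmDiff (brk σ) γ).card : ℝ)) * ed e σ) - ZG b D γ := by
      rw [ZG, Finset.mul_sum, ← Finset.sum_sub_distrib]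
      refine Finset.sum_congr rfl fun σ _ => by ring
    rw [h6]
    field_simp
  simp only [h4]
  rw [Finset.sum_comm]
  refine Finset.sum_congr rfl fun σ _ => ?_
  rw [← Finset.mul_sum, HC_card]

theorem HC : HC_stmt := by
  intro d n _ D γ b
  have h := (HC_der D γ b).sub (HC_der D ∅ b)
  have hv : -(∑ e : Edge d n, (EG b D ∅ (ed e) - sgn γ e * EG b D γ (ed e))) =
      ∑ e, (sgn γ e * EG b D γ (ed e) - 1) - ∑ e, (sgn ∅ e * EG b D ∅ (ed e) - 1) := by
    rw [← Finset.sum_sub_distrib, ← Finset.sum_neg_distrib]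
    refine Finset.sum_congr rfl fun e _ => ?_
    have : sgn (∅ : Finset (Edge d n)) e = 1 := by simp [sgn]
    rw [this]
    ring
  rw [hv]
  exact h

end CU
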