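import Pool.Agent.helper23.CU.SpecE

open Finset Filter Topology

namespace CU

lemma HD_card {d n : ℕ} [NeZero n] (σ : Conf d n) :
    ∑ e : Edge d n, ed e σ = (Fintype.card (Edge d n) : ℝ) - 2 * ((brk σ).card : ℝ) := by
  classical
  have h1 : ((brk σ).card : ℝ) = ∑ e : Edge d n, if e ∈ brk σ then (1 : ℝ) else 0 := by
    rw [Finset.sum_ite_mem, Finset.sum_const, Finset.univ_inter]
    simp
  have h0 : (Fintype.card (Edge d n) : ℝ) = ∑ e : Edge d n, (1 : ℝ) := by simp
  rw [h1, h0, Finset.mul_sum, ← Finset.sum_sub_distrib]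
  refine Finset.sum_congr rfl fun e _ => ?_
  by_cases hb : σ e.1 = σ (e.1 + ev e.2)
  · have hbr : e ∉ brk σ := by simp [brk, hb]
    rw [if_neg hbr]
    unfold ed
    rw [← hb]
    cases σ e.1 <;> simp [sg]
  · have hbr : e ∈ brk σ := by simp [brk, hb]
    rw [if_pos hbr]
    unfold ed
    revert hb
    cases σ e.1 <;> cases σ (e.1 + ev e.2) <;> simp [sg] <;> norm_num

lemma HD_exp {d n : ℕ} [NeZero n] (b : ℝ) (σ : Conf d n) :
    Real.exp (∑ e : Edge d n, b * ed e σ) = Real.exp (b * (Fintype.card (Edge d n) : ℝ)) * W b σ := by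
  rw [← Finset.mul_sum, HD_card, W, ← Real.exp_add]
  congr 1
  ring

theorem HD (h : GI_stmt) : HD_stmt := by
  intro d n _ D b' b hb' hbb x
  classical
  have h1 := h d n D (fun _ => b) (fun _ => b') (fun e => by rw [abs_of_nonneg hb']; exact hbb) [] [x]
  simp only [List.map_nil, List.prod_nil, List.map_cons, List.prod_cons, mul_one, one_mul] at h1
  have h2 : ∀ σ σ' : Conf d n, Real.exp (∑ e : Edge d n, (b * ed e σ + b' * ed e σ')) *
      (sg (σ x) - sg (σ' x)) = Real.exp (b * (Fintype.card (Edge d n) : ℝ)) *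
      Real.exp (b' * (Fintype.card (Edge d n) : ℝ)) *
      ((W b σ * sg (σ x)) * W b' σ' - W b σ * (W b' σ' * sg (σ' x))) := by
    intro σ σ'
    rw [Finset.sum_add_distrib, Real.exp_add, HD_exp, HD_exp]
    ring
  simp only [h2] at h1
  simp only [← Finset.mul_sum, Finset.sum_sub_distrib] at h1
  simp only [← Finset.sum_mul, ← Finset.mul_sum] at h1
  have h3 : 0 ≤ (∑ σ ∈ PlusOn D, W b σ * sg (σ x)) * (∑ σ ∈ PlusOn D, W b' σ) -
      (∑ σ ∈ PlusOn D, W b σ) * ∑ σ ∈ PlusOn D, W b' σ * sg (σ x) :=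
    nonneg_of_mul_nonneg_right h1 (by positivity)
  have hp : ∀ b : ℝ, 0 < ∑ σ ∈ PlusOn D, W b σ := by
    intro b
    refine Finset.sum_pos (fun σ _ => Real.exp_pos _) ⟨plus, ?_⟩
    simp [PlusOn, plus]
  unfold ExD
  rw [div_le_div_iff₀ (hp _) (hp _)]
  linarith

end CU
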