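import Pool.Agent.helper23.CU.SpecE

open Finset Filter Topology

namespace CU

lemma HH_sum (n : ℕ) [NeZero n] (f : ZMod n → ℝ) (j₀ : ZMod n) :
    ∑ k ∈ Finset.range n, f (j₀ + (k : ZMod n)) = ∑ j, f j := by
  have h1 : ∑ j, f j = ∑ j, f (j₀ + j) :=
    (Fintype.sum_equiv (Equiv.addLeft j₀) (fun j => f (j₀ + j)) f (fun j => rfl)).symm
  rw [h1]
  refine Finset.sum_nbij' (fun k => (k : ZMod n)) ZMod.val ?_ ?_ ?_ ?_ ?_
  · intro k _; exact mem_univ _
  · intro j _; exact mem_range.mpr (ZMod.val_lt j)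
  · intro k hk; exact ZMod.val_cast_of_lt (mem_range.mp hk)
  · intro j _; exact ZMod.natCast_zmod_val j
  · intro k _; rfl

lemma HH_prod (n : ℕ) [NeZero n] (f : ZMod n → ℝ) (j₀ : ZMod n) :
    ∏ k ∈ Finset.range n, f (j₀ + (k : ZMod n)) = ∏ j, f j := by
  have h1 : ∏ j, f j = ∏ j, f (j₀ + j) :=
    (Fintype.prod_equiv (Equiv.addLeft j₀) (fun j => f (j₀ + j)) f (fun j => rfl)).symm
  rw [h1]
  refine Finset.prod_nbij' (fun k => (k : ZMod n)) ZMod.val ?_ ?_ ?_ ?_ ?_
  · intro k _; exact mem_univ _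
  · intro j _; exact mem_range.mpr (ZMod.val_lt j)
  · intro k hk; exact ZMod.val_cast_of_lt (mem_range.mp hk)
  · intro j _; exact ZMod.natCast_zmod_val j
  · intro k _; rfl

theorem HH : HH_stmt := by
  intro n _ a s S hs hS ⟨j₀, hj₀⟩
  classical
  let P : ℕ → ℝ := fun k => ∏ i ∈ Finset.range k, s (j₀ + (i : ZMod n))
  let y : ℕ → ℝ := fun k => P k * a (j₀ + (k : ZMod n))
  have hsq : ∀ j, s j * s j = 1 := by
    intro j
    rw [hs]
    split_ifs <;> norm_num
  have hsa : ∀ j, |s j| = 1 := by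
    intro j
    rw [hs]
    split_ifs <;> norm_num
  have hPa : ∀ k, |P k| = 1 := by
    intro k
    simp only [P]
    rw [Finset.abs_prod]
    exact Finset.prod_eq_one fun i _ => hsa _
  have hPn : P n = -1 := by
    simp only [P]
    rw [HH_prod n s j₀]
    simp only [hs]
    rw [Finset.prod_ite_mem, Finset.univ_inter, Finset.prod_const, hS.neg_one_pow]
  have hy0 : y 0 = 1 := by simp [y, P, hj₀]
  have hyn : y n = -1 := by simp [y, hPn, hj₀]
  have hstep : ∀ k, |y (k + 1) - y k| = |a (j₀ + (k : ZMod n) + 1) - s (j₀ + (k : ZMod n)) * a (j₀ + (k : ZMod n))| := by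
    intro k
    have h1 : y (k + 1) - y k = P k * s (j₀ + (k : ZMod n)) *
        (a (j₀ + (k : ZMod n) + 1) - s (j₀ + (k : ZMod n)) * a (j₀ + (k : ZMod n))) := by
      simp only [y, P, Finset.prod_range_succ, Nat.cast_add, Nat.cast_one, ← add_assoc]
      have := hsq (j₀ + (k : ZMod n))
      linear_combination ((∏ i ∈ Finset.range k, s (j₀ + (i : ZMod n))) * a (j₀ + (k : ZMod n))) * this
    rw [h1, abs_mul, abs_mul, hPa, hsa, one_mul, one_mul]
  have h2 : ∑ j, |a (j + 1) - s j * a j| = ∑ k ∈ Finset.range n, |y (k + 1) - y k| := by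
    rw [← HH_sum n (fun j => |a (j + 1) - s j * a j|) j₀]
    exact Finset.sum_congr rfl fun k _ => (hstep k).symm
  rw [h2]
  calc (2 : ℝ) = |y n - y 0| := by rw [hy0, hyn]; norm_num
    _ = |∑ k ∈ Finset.range n, (y (k + 1) - y k)| := by rw [Finset.sum_range_sub]
    _ ≤ _ := Finset.abs_sum_le_sum_abs _ _

end CU
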