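import Pool.Agent.helper23.CU.Spec

open Finset Filter Topology

namespace CU

lemma L1_Mg {d n : ℕ} [NeZero n] (σ η : Conf d n) (h : σ ≤ η) (hne : σ ≠ η) : Mg σ + 2 ≤ Mg η := by
  classical
  have h1 : ∀ x, sg (σ x) ≤ sg (η x) := by
    intro x
    have := h x
    revert this
    cases σ x <;> cases η x <;> simp [sg]
  obtain ⟨x, hx⟩ : ∃ x, σ x ≠ η x := by
    by_contra hc
    push Not at hc
    exact hne (funext hc)
  have h2 : sg (σ x) + 2 = sg (η x) := by
    have := h x
    revert this hx
    cases σ x <;> cases η x <;> simp [sg]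
    norm_num
  unfold Mg
  rw [← Finset.add_sum_erase _ _ (mem_univ x), ← Finset.add_sum_erase _ (fun x => sg (η x)) (mem_univ x)]
  have h3 := Finset.sum_le_sum (s := univ.erase x) fun y _ => h1 y
  linarith

theorem L1 (h1 : MON_stmt) (h2 : LIN_stmt) : L1_stmt := by
  intro d n _ hn β hβ s f hf σ η hση
  have hm1 : Monotone (fun σ : Conf d n => (1 / 2) * Mg σ + 1 * f σ) := by
    intro a b hab
    by_cases he : a = b
    · rw [he]
    · have := L1_Mg a b hab he
      have ha := hf a
      have hb := hf b
      simp only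
      linarith [ha.1, ha.2, hb.1, hb.2]
  have hm2 : Monotone (fun σ : Conf d n => (1 / 2) * Mg σ + (-1) * f σ) := by
    intro a b hab
    by_cases he : a = b
    · rw [he]
    · have := L1_Mg a b hab he
      have ha := hf a
      have hb := hf b
      simp only
      linarith [ha.1, ha.2, hb.1, hb.2]
  have e1 := (h1 d n hn β hβ _ hm1).2 s hση
  have e2 := (h1 d n hn β hβ _ hm2).2 s hση
  rw [(h2 d n β Mg f (1 / 2) 1 s).1] at e1
  rw [(h2 d n β Mg f (1 / 2) (-1) s).1] at e2
  simp only at e1 e2
  rw [abs_le]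
  unfold gs
  constructor <;> linarith

end CU
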