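import Pool.Agent.helper23.CU.SpecE

open Finset Filter Topology

namespace CU

lemma QF_walk {n : ℕ} [NeZero n] (ω : Finset (Edge 2 n)) (r : ℕ) (u₀ : Site 2 n) (hω : ω ⊆ FS r u₀)
    {a b : Site 2 n} (p : (dG ω).Walk a b) (ha : a ∈ Box r u₀) : b ∈ Box r u₀ := by
  induction p with
  | nil => exact ha
  | cons h p ih =>
    apply ih
    obtain ⟨_, e, he, h1⟩ := h
    have h2 := hω he
    simp only [FS, mem_filter, mem_univ, true_and] at h2
    rcases h1 with ⟨_, h1⟩ | ⟨h1, _⟩
    · rw [← h1]; exact h2.2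
    · rw [← h1]; exact h2.1

theorem QF : QF_stmt := by
  intro n r _ hn u₀ u w η ω hbd hu hw hω hηω
  classical
  by_contra hc
  push Not at hc
  let C : Finset (Site 2 n) := univ.filter fun v => (dG ω).Reachable u v
  have hadj : ∀ e ∈ ω, (e.1 ∈ C ↔ dn e ∈ C) := by
    intro e he
    simp only [C, mem_filter, mem_univ, true_and]
    by_cases heq : e.1 = dn e
    · rw [← heq]
    · have h1 : (dG ω).Adj e.1 (dn e) := ⟨heq, e, he, Or.inl ⟨rfl, rfl⟩⟩
      exact ⟨fun h => h.trans h1.reachable, fun h => h.trans h1.symm.reachable⟩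
  have hCB : ∀ v ∈ C, v ∈ Box r u₀ := by
    intro v hv
    have hv' : (dG ω).Reachable u v := by simpa [C] using hv
    obtain ⟨p⟩ := hv'
    exact QF_walk ω r u₀ hω p hu
  have h1 : ∑ v ∈ C, bd η v = 1 := by
    rw [hbd]
    unfold src
    rw [Finset.sum_add_distrib, Finset.sum_ite_eq', Finset.sum_ite_eq', if_pos, if_neg, add_zero]
    · intro h; exact hw (hCB _ h)
    · simp [C]
  have h2 : ∑ v ∈ C, bd η v = 0 := by
    unfold bd
    rw [Finset.sum_comm]
    refine Finset.sum_eq_zero fun e he => ?_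
    rw [Finset.sum_add_distrib, Finset.sum_ite_eq, Finset.sum_ite_eq]
    by_cases h3 : e.1 ∈ Box r u₀ <;> by_cases h4 : dn e ∈ Box r u₀
    · have h5 : e ∈ ω := hηω (by simp [FS, he, h3, h4])
      by_cases h6 : e.1 ∈ C
      · rw [if_pos h6, if_pos ((hadj e h5).mp h6)]
        decide
      · rw [if_neg h6, if_neg (fun h => h6 ((hadj e h5).mpr h))]
        decide
    · have h5 := hc e he (by simp [cut, h3, h4])
      rw [inn, if_pos h3] at h5
      rw [if_neg (by simpa [C] using h5), if_neg (fun h => h4 (hCB _ h))]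
      decide
    · have h5 := hc e he (by simp [cut, h3, h4])
      rw [inn, if_neg h3] at h5
      rw [if_neg (fun h => h3 (hCB _ h)), if_neg (by simpa [C] using h5)]
      decide
    · rw [if_neg (fun h => h3 (hCB _ h)), if_neg (fun h => h4 (hCB _ h))]
      decide
  rw [h1] at h2
  exact absurd h2 (by decide)

end CU
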