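import Pool.Agent.helper23.CU.SpecE

open Finset Filter Topology

namespace CU

lemma RA_plus {d n : ℕ} [NeZero n] (D : Finset (Site d n)) :
    PlusOn D = Fintype.piFinset (fun x => if x ∈ D then (univ : Finset Bool) else {true}) := by
  classical
  ext σ
  simp only [PlusOn, mem_filter, mem_univ, true_and, Fintype.mem_piFinset]
  refine forall_congr' fun x => ?_
  by_cases h : x ∈ D
  · simp [h]
  · simp [h]

lemma RA_mono {d n : ℕ} [NeZero n] (D : Finset (Site d n)) (k : Site d n → ℕ) :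
    0 ≤ ∑ σ ∈ PlusOn D, ∏ x, sg (σ x) ^ k x := by
  rw [RA_plus, ← Finset.prod_univ_sum (fun x => if x ∈ D then (univ : Finset Bool) else {true})
    (fun x b => sg b ^ k x)]
  refine Finset.prod_nonneg fun x _ => ?_
  by_cases h : x ∈ D
  · rw [if_pos h]
    simp only [Fintype.sum_bool, sg, if_true, one_pow, Bool.false_eq_true, if_false]
    rcases neg_one_pow_eq_or ℝ (k x) with h | h <;> rw [h] <;> norm_num
  · rw [if_neg h]
    simp [sg]

def RA_M (d n : ℕ) [NeZero n] : Submonoid (Conf d n → ℝ) :=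
  Submonoid.closure (Set.range fun (x : Site d n) (σ : Conf d n) => sg (σ x))

lemma RA_gen {d n : ℕ} [NeZero n] (x : Site d n) :
    (fun σ : Conf d n => sg (σ x)) ∈ RA_M d n :=
  Submonoid.subset_closure ⟨x, rfl⟩

lemma RA_rep {d n : ℕ} [NeZero n] {f : Conf d n → ℝ} (hf : f ∈ RA_M d n) :
    ∃ k : Site d n → ℕ, ∀ σ, f σ = ∏ x, sg (σ x) ^ k x := by
  induction hf using Submonoid.closure_induction with
  | mem f hf =>
    obtain ⟨x, rfl⟩ := hf
    refine ⟨Pi.single x 1, fun σ => ?_⟩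
    rw [Finset.prod_eq_single x]
    · simp
    · intro y _ hy
      simp [Pi.single_eq_of_ne hy]
    · intro h
      exact absurd (mem_univ _) h
  | one => exact ⟨0, fun σ => by simp⟩
  | mul f g _ _ hf hg =>
    obtain ⟨k, hk⟩ := hf
    obtain ⟨l, hl⟩ := hg
    exact ⟨k + l, fun σ => by simp [hk, hl, pow_add, Finset.prod_mul_distrib]⟩

lemma RA_pos {d n : ℕ} [NeZero n] (D : Finset (Site d n)) {f : Conf d n → ℝ} (hf : f ∈ RA_M d n) :
    0 ≤ ∑ σ ∈ PlusOn D, f σ := by
  obtain ⟨k, hk⟩ := RA_rep hf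
  simp only [hk]
  exact RA_mono D k

lemma RA_exp {d n : ℕ} [NeZero n] (b : ℝ) (γ : Finset (Edge d n)) (σ : Conf d n) :
    Real.exp (-2 * b * ((symmDiff (brk σ) γ).card : ℝ)) =
      ∏ e : Edge d n, Real.exp (-b) * (Real.cosh b + sgn γ e * ed e σ * Real.sinh b) := by
  classical
  have h1 : ((symmDiff (brk σ) γ).card : ℝ) = ∑ e : Edge d n, if e ∈ symmDiff (brk σ) γ then (1 : ℝ) else 0 := by
    rw [Finset.sum_ite_mem, Finset.sum_const, Finset.univ_inter]
    simp
  rw [h1, Finset.mul_sum, Real.exp_sum]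
  refine Finset.prod_congr rfl fun e _ => ?_
  have h2 : (e ∈ symmDiff (brk σ) γ ∧ sgn γ e * ed e σ = -1) ∨ (e ∉ symmDiff (brk σ) γ ∧ sgn γ e * ed e σ = 1) := by
    by_cases hb : σ e.1 = σ (e.1 + ev e.2)
    · have hbr : e ∉ brk σ := by simp [brk, hb]
      have hed : ed e σ = 1 := by
        unfold ed
        rw [← hb]
        cases σ e.1 <;> simp [sg]
      by_cases hg : e ∈ γ
      · left
        exact ⟨by simp [Finset.mem_symmDiff, hbr, hg], by simp [sgn, hg, hed]⟩
      · right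
        exact ⟨by simp [Finset.mem_symmDiff, hbr, hg], by simp [sgn, hg, hed]⟩
    · have hbr : e ∈ brk σ := by simp [brk, hb]
      have hed : ed e σ = -1 := by
        unfold ed
        revert hb
        cases σ e.1 <;> cases σ (e.1 + ev e.2) <;> simp [sg]
      by_cases hg : e ∈ γ
      · right
        exact ⟨by simp [Finset.mem_symmDiff, hbr, hg], by simp [sgn, hg, hed]⟩
      · left
        exact ⟨by simp [Finset.mem_symmDiff, hbr, hg], by simp [sgn, hg, hed]⟩
  rcases h2 with ⟨h, h3⟩ | ⟨h, h3⟩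
  · rw [if_pos h, h3, mul_one, neg_one_mul, ← sub_eq_add_neg, Real.cosh_sub_sinh, ← Real.exp_add]
    congr 1
    ring
  · rw [if_neg h, h3, mul_zero, Real.exp_zero, one_mul, Real.cosh_add_sinh, ← Real.exp_add, neg_add_cancel,
      Real.exp_zero]

lemma RA_Z {d n : ℕ} [NeZero n] (b : ℝ) (D : Finset (Site d n)) (γ : Finset (Edge d n)) :
    ZG b D γ = ∑ T : Finset (Edge d n), (Real.exp (-b) ^ (univ : Finset (Edge d n)).card * Real.cosh b ^ T.card *
      Real.sinh b ^ (univ \ T).card) * ((∏ e ∈ univ \ T, sgn γ e) * ∑ σ ∈ PlusOn D, ∏ e ∈ univ \ T, ed e σ) := by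
  classical
  unfold ZG
  have h1 : ∀ σ : Conf d n, Real.exp (-2 * b * ((symmDiff (brk σ) γ).card : ℝ)) =
      ∑ T : Finset (Edge d n), (Real.exp (-b) ^ (univ : Finset (Edge d n)).card * Real.cosh b ^ T.card *
      Real.sinh b ^ (univ \ T).card) * ((∏ e ∈ univ \ T, sgn γ e) * ∏ e ∈ univ \ T, ed e σ) := by
    intro σ
    rw [RA_exp, Finset.prod_mul_distrib, Finset.prod_const, Finset.prod_add, Finset.mul_sum,
      Finset.powerset_univ]
    refine Finset.sum_congr rfl fun T _ => ?_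
    rw [Finset.prod_const, Finset.prod_mul_distrib, Finset.prod_mul_distrib, Finset.prod_const]
    ring
  simp only [h1]
  rw [Finset.sum_comm]
  refine Finset.sum_congr rfl fun T _ => ?_
  rw [← Finset.mul_sum, ← Finset.mul_sum]

theorem RA : RA_stmt := by
  intro d n _ b hb D γ
  classical
  rw [RA_Z, RA_Z]
  refine Finset.sum_le_sum fun T _ => ?_
  have hs : 0 ≤ Real.sinh b := Real.sinh_nonneg_iff.mpr hb
  refine mul_le_mul_of_nonneg_left ?_ (by positivity)
  have h2 : 0 ≤ ∑ σ ∈ PlusOn D, ∏ e ∈ univ \ T, ed e σ := by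
    apply RA_pos
    have h3 : (∏ e ∈ univ \ T, ((fun σ : Conf d n => sg (σ e.1)) * (fun σ : Conf d n => sg (σ (e.1 + ev e.2)))))
        ∈ RA_M d n :=
      Submonoid.prod_mem _ fun e _ => Submonoid.mul_mem _ (RA_gen _) (RA_gen _)
    convert h3 using 1
    funext σ
    simp only [Pi.mul_apply, Finset.prod_apply, ed]
  refine mul_le_mul_of_nonneg_right ?_ h2
  have h4 : ∏ e ∈ univ \ T, sgn (∅ : Finset (Edge d n)) e = 1 :=
    Finset.prod_eq_one fun e _ => by simp [sgn]
  rw [h4]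
  have h5 : |∏ e ∈ univ \ T, sgn γ e| = 1 := by
    rw [Finset.abs_prod]
    refine Finset.prod_eq_one fun e _ => ?_
    unfold sgn
    split_ifs <;> simp
  exact (le_abs_self _).trans h5.le

end CU
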